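import Mathlib
import Pool.Agent.H442R2.EHI.PntErr

set_option autoImplicit false

/-!
# The prime number theorem for the counting function with an error term
-/

namespace Pool.Agent.N420.MA

open Filter Topology Asymptotics

/-- `π(x) log x / x = 1 + O(1 / log x)` -/
theorem pi_rate : ∃ C x0 : ℝ, 0 < C ∧ 3 ≤ x0 ∧ ∀ x : ℝ, x0 ≤ x →
    |(Nat.primeCounting ⌊x⌋₊ : ℝ) * Real.log x / x - 1| ≤ C / Real.log x := by
  obtain ⟨C1, hC1, h1⟩ := Pool.Agent.H442R2.EHI.PntErrAux.thetaU 1
  obtain ⟨C2, h2⟩ := Chebyshev.primeCounting_sub_theta_div_log_isBigO.bound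
  obtain ⟨x1, hx1⟩ := eventually_atTop.1 h2
  refine ⟨|C2| + (2 * C1 + 1), max x1 4, by positivity, ?_, fun x hx => ?_⟩
  · exact le_trans (by norm_num) (le_max_right _ _)
  have hxx1 : x1 ≤ x := (le_max_left _ _).trans hx
  have hx4 : 4 ≤ x := (le_max_right _ _).trans hx
  have hx0 : 0 < x := by linarith
  have hl1 : 1 < Real.log x := by
    rw [Real.lt_log_iff_exp_lt hx0]
    linarith [Real.exp_one_lt_d9]
  have hl0 : 0 < Real.log x := by linarith
  have h3 := hx1 x hxx1
  rw [Real.norm_eq_abs, Real.norm_of_nonneg (show (0 : ℝ) ≤ x / Real.log x ^ 2 by positivity)] at h3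
  have h4 : |(Nat.primeCounting ⌊x⌋₊ : ℝ) * Real.log x / x - Chebyshev.theta x / x| ≤
      |C2| / Real.log x := by
    have e : (Nat.primeCounting ⌊x⌋₊ : ℝ) * Real.log x / x - Chebyshev.theta x / x =
        ((Nat.primeCounting ⌊x⌋₊ : ℝ) - Chebyshev.theta x / Real.log x) * (Real.log x / x) := by
      field_simp
    rw [e, abs_mul, abs_of_pos (show 0 < Real.log x / x by positivity)]
    calc _ ≤ (C2 * (x / Real.log x ^ 2)) * (Real.log x / x) :=
          mul_le_mul_of_nonneg_right h3 (by positivity)
      _ = C2 / Real.log x := by field_simp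
      _ ≤ _ := by
          gcongr
          exact le_abs_self _
  have h5 : |Chebyshev.theta x / x - 1| ≤ (2 * C1 + 1) / Real.log x := by
    set N := ⌊x⌋₊ with hN
    have hN3 : 3 ≤ N := Nat.le_floor (by push_cast; linarith)
    have hNx : (N : ℝ) ≤ x := Nat.floor_le hx0.le
    have hxN : x < N + 1 := Nat.lt_floor_add_one x
    have hNr : (3 : ℝ) ≤ N := by exact_mod_cast hN3
    have hN0 : (0 : ℝ) < N := by linarith
    have h6 := h1 N (by omega)
    rw [pow_one] at h6
    have h7 : Real.log x / 2 ≤ Real.log N := by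
      have h8 : x ≤ N ^ 2 := by nlinarith
      have h9 := Real.log_le_log hx0 h8
      rw [Real.log_pow] at h9
      push_cast at h9
      linarith
    have h8 : |Chebyshev.theta (N : ℝ) - N| ≤ 2 * C1 / Real.log x * x := by
      refine h6.trans ?_
      calc C1 * ((N : ℝ) / Real.log N) ≤ C1 * (x / (Real.log x / 2)) := by gcongr
        _ = _ := by field_simp
    have h9 : Chebyshev.theta x = Chebyshev.theta (N : ℝ) := by
      rw [Chebyshev.theta_eq_theta_coe_floor x]
    have h10 : |Chebyshev.theta x - x| ≤ (2 * C1 / Real.log x + 1 / Real.log x) * x := by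
      rw [h9]
      have h11 : (1 : ℝ) ≤ 1 / Real.log x * x := by
        rw [one_div_mul_eq_div, le_div_iff₀ hl0]
        have := Real.log_le_sub_one_of_pos hx0
        linarith
      have h12 := abs_le.1 h8
      rw [abs_le, add_mul]
      constructor <;> linarith [h12.1, h12.2]
    have e : Chebyshev.theta x / x - 1 = (Chebyshev.theta x - x) / x := by field_simp
    rw [e, abs_div, abs_of_pos hx0, div_le_iff₀ hx0]
    refine h10.trans (le_of_eq ?_)
    ring
  have h6 := abs_le.1 h4
  have h7 := abs_le.1 h5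
  rw [add_div, abs_le]
  constructor <;> linarith [h6.1, h6.2, h7.1, h7.2]

end Pool.Agent.N420.MA
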