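import Mathlib
import Pool.Agent.W66.LO
import Pool.Agent.TH888.R.Mean
import Pool.Agent.N420.MA.Pi

set_option autoImplicit false

/-!
# The mean of the indicator of a prime rough part of the low digits, with an error term
-/

namespace Pool.Agent.N420.MA

open Filter Topology
open scoped Real
open Pool.Agent.W66 Pool.Agent.W66L
open Pool.Agent.H305R2 (roughPart SM SM_pos SMz mem_SMz ZZ VV sum_rough_eq sum_le_VV tail_le
  ZZ_le_exp ZZ_nonneg VV_nonneg VV_tendsto inv_le_rpow log_nat_tendsto)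
open Pool.Agent.TH888.R (ZZ_rate VV_rate)

lemma AA_upper' {b : ℕ} (hb : 2 ≤ b) {δ : ℝ} (hδ : 0 < δ) (hδ1 : δ < 1 / 4) {q : ℕ}
    (h2 : b ≤ q) (hX3 : 3 ≤ δ * (Real.log b * q))
    (hx0 : ∀ x : ℝ, Real.exp ((1 - 2 * δ) * (Real.log b * q)) ≤ x →
      (Nat.primeCounting ⌊x⌋₊ : ℝ) * Real.log x / x < 1 + δ) :
    AA b q ≤ (b : ℝ) ^ q * ((1 + δ) / ((1 - 2 * δ) * (Real.log b * q)) * VB b q +
      Real.exp (-(δ * (Real.log b * q) / 2)) * ZZ q) := by
  set lb := Real.log b with hlb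
  have hlb0 : 0 < lb := Real.log_pos (by exact_mod_cast hb)
  have hq0 : (0 : ℝ) < q := by exact_mod_cast (by omega : 0 < q)
  have hlq : 0 < lb * q := by positivity
  set X := b ^ q - 1 with hX
  have hbr : (2 : ℝ) ≤ b := by exact_mod_cast hb
  have hbq : (b : ℝ) ^ q = Real.exp (lb * q) := by
    rw [mul_comm, Real.exp_nat_mul, hlb, Real.exp_log (by linarith)]
  have hXr : (X : ℝ) = (b : ℝ) ^ q - 1 := by
    rw [hX, Nat.cast_sub (Nat.one_le_pow _ _ (by omega))]
    push_cast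
    rfl
  have hXle : (X : ℝ) ≤ (b : ℝ) ^ q := by linarith
  have hXnn : (0 : ℝ) ≤ X := Nat.cast_nonneg _
  set S := Real.exp (δ * (lb * q)) with hS
  have hS0 : 0 < S := Real.exp_pos _
  have hS1 : 1 ≤ S := Real.one_le_exp (by linarith)
  rw [AA_eq hb h2, ← Finset.sum_filter_add_sum_filter_not (SMz q (X : ℝ)) (fun s : ℕ => (s : ℝ) ≤ S),
    mul_add]
  have hF : ∀ n ∈ (SMz q (X : ℝ)).filter (fun s : ℕ => (s : ℝ) ≤ S), n ∈ SM q := by
    intro n hn
    rw [Finset.mem_filter, mem_SMz hXnn] at hn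
    exact hn.1.1
  apply add_le_add
  · have hterm : ∀ s ∈ (SMz q (X : ℝ)).filter (fun s : ℕ => (s : ℝ) ≤ S),
        (if s.Coprime b then (1 : ℝ) else 0) *
          (((Finset.Ioc 0 (X / s)).filter (fun l => l.Prime ∧ q < l)).card : ℝ) ≤
        (b : ℝ) ^ q * ((1 + δ) / ((1 - 2 * δ) * (lb * q))) * copHom b s := by
      intro s hs
      rw [Finset.mem_filter, mem_SMz hXnn] at hs
      obtain ⟨⟨hs1, _⟩, hsS⟩ := hs
      have hs0 : 0 < s := SM_pos hs1
      have hs0' : (0 : ℝ) < s := by exact_mod_cast hs0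
      have hs1' : (1 : ℝ) ≤ s := by exact_mod_cast hs0
      rw [copHom_apply]
      by_cases hc : s.Coprime b
      · rw [if_pos hc, if_pos hc, one_mul]
        refine (card_inner_le _ _).trans ?_
        set x := (X : ℝ) / s with hx
        have hfl : X / s = ⌊x⌋₊ := by rw [hx, Nat.floor_div_eq_div]
        have hxlow : Real.exp ((1 - 2 * δ) * (lb * q)) ≤ x := by
          rw [hx, le_div_iff₀ hs0', hXr, hbq]
          have e1 : Real.exp (lb * q) = Real.exp ((1 - 2 * δ) * (lb * q)) *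
              (Real.exp (δ * (lb * q)) * Real.exp (δ * (lb * q))) := by
            rw [← Real.exp_add, ← Real.exp_add]; ring_nf
          rw [e1, ← hS]
          have e2 : 1 ≤ Real.exp ((1 - 2 * δ) * (lb * q)) := Real.one_le_exp (by
            apply mul_nonneg (by linarith) hlq.le)
          have e3 : 4 ≤ S := by
            have := Real.add_one_le_exp (δ * (lb * q))
            linarith
          have e4 : Real.exp ((1 - 2 * δ) * (lb * q)) * s ≤ Real.exp ((1 - 2 * δ) * (lb * q)) * S :=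
            mul_le_mul_of_nonneg_left hsS (Real.exp_pos _).le
          have e5 : 1 ≤ Real.exp ((1 - 2 * δ) * (lb * q)) * S := by nlinarith
          have e6 : Real.exp ((1 - 2 * δ) * (lb * q)) * S * 4 ≤
              Real.exp ((1 - 2 * δ) * (lb * q)) * S * S :=
            mul_le_mul_of_nonneg_left e3 (by positivity)
          nlinarith
        have hx0' : 0 < x := lt_of_lt_of_le (Real.exp_pos _) hxlow
        have hlogx : (1 - 2 * δ) * (lb * q) ≤ Real.log x := by
          rw [Real.le_log_iff_exp_le hx0']; exact hxlow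
        have hpos : 0 < (1 - 2 * δ) * (lb * q) := mul_pos (by linarith) hlq
        have h3 := hx0 x hxlow
        rw [div_lt_iff₀ hx0'] at h3
        have h4 : (Nat.primeCounting (X / s) : ℝ) ≤ (1 + δ) * x / ((1 - 2 * δ) * (lb * q)) := by
          rw [hfl, le_div_iff₀ hpos]
          have : (Nat.primeCounting ⌊x⌋₊ : ℝ) * ((1 - 2 * δ) * (lb * q)) ≤
            (Nat.primeCounting ⌊x⌋₊ : ℝ) * Real.log x := mul_le_mul_of_nonneg_left hlogx (by positivity)
          linarith
        refine h4.trans ?_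
        have h5 : x ≤ (b : ℝ) ^ q * (s : ℝ)⁻¹ := by
          rw [hx, div_eq_mul_inv]
          exact mul_le_mul_of_nonneg_right hXle (by positivity)
        calc (1 + δ) * x / ((1 - 2 * δ) * (lb * q)) ≤
            (1 + δ) * ((b : ℝ) ^ q * (s : ℝ)⁻¹) / ((1 - 2 * δ) * (lb * q)) := by gcongr
          _ = _ := by ring
      · rw [if_neg hc, if_neg hc]; simp
    refine (Finset.sum_le_sum hterm).trans ?_
    rw [← Finset.mul_sum]
    have h3 := sum_le_VB b q _ hF
    have hpos : 0 < (1 - 2 * δ) * (lb * q) := mul_pos (by linarith) hlq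
    calc (b : ℝ) ^ q * ((1 + δ) / ((1 - 2 * δ) * (lb * q))) *
          ∑ s ∈ (SMz q (X : ℝ)).filter (fun s : ℕ => (s : ℝ) ≤ S), copHom b s ≤
        (b : ℝ) ^ q * ((1 + δ) / ((1 - 2 * δ) * (lb * q))) * VB b q := by gcongr
      _ = _ := by ring
  · have hterm : ∀ s ∈ (SMz q (X : ℝ)).filter (fun s : ℕ => ¬ (s : ℝ) ≤ S),
        (if s.Coprime b then (1 : ℝ) else 0) *
          (((Finset.Ioc 0 (X / s)).filter (fun l => l.Prime ∧ q < l)).card : ℝ) ≤
        (b : ℝ) ^ q * (s : ℝ)⁻¹ := by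
      intro s _
      have h3 : (((Finset.Ioc 0 (X / s)).filter (fun l => l.Prime ∧ q < l)).card : ℝ) ≤
          (X : ℝ) * (s : ℝ)⁻¹ := by
        have h4 : ((Finset.Ioc 0 (X / s)).filter (fun l => l.Prime ∧ q < l)).card ≤ X / s := by
          refine (Finset.card_filter_le _ _).trans ?_
          rw [Nat.card_Ioc, Nat.sub_zero]
        rw [← div_eq_mul_inv]
        exact le_trans (by exact_mod_cast h4) Nat.cast_div_le
      have h5 : (if s.Coprime b then (1 : ℝ) else 0) ≤ 1 := by split_ifs <;> norm_num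
      have h6 : (0 : ℝ) ≤ (if s.Coprime b then (1 : ℝ) else 0) := by split_ifs <;> norm_num
      calc _ ≤ 1 * ((X : ℝ) * (s : ℝ)⁻¹) := mul_le_mul h5 h3 (by positivity) (by norm_num)
        _ ≤ _ := by
          rw [one_mul]
          exact mul_le_mul_of_nonneg_right hXle (by positivity)
    refine (Finset.sum_le_sum hterm).trans ?_
    rw [← Finset.mul_sum]
    apply mul_le_mul_of_nonneg_left _ (by positivity)
    have h3 := tail_le q hS0 ((SMz q (X : ℝ)).filter (fun s : ℕ => ¬ (s : ℝ) ≤ S)) (by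
      intro n hn
      rw [Finset.mem_filter, mem_SMz hXnn] at hn
      exact ⟨hn.1.1, (not_le.1 hn.2).le⟩)
    refine h3.trans (le_of_eq ?_)
    rw [hS, ← Real.exp_mul]
    ring_nf

lemma AA_lower' {b : ℕ} (hb : 2 ≤ b) {δ : ℝ} (hδ : 0 < δ) (hδ1 : δ < 1 / 4) {q : ℕ}
    (h2 : b ≤ q) (hX3 : 3 ≤ δ * (Real.log b * q)) (hXδ : 1 / δ ≤ δ * (Real.log b * q))
    (hx0 : ∀ x : ℝ, Real.exp ((1 - 2 * δ) * (Real.log b * q)) ≤ x →
      1 - δ < (Nat.primeCounting ⌊x⌋₊ : ℝ) * Real.log x / x) :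
    (b : ℝ) ^ q * ((1 - δ) ^ 2 / (Real.log b * q) *
      (VB b q - Real.exp (-(δ * (Real.log b * q) / 2)) * ZZ q) -
      q * Real.exp (-((1 - δ) * (Real.log b * q)))) ≤ AA b q := by
  set lb := Real.log b with hlb
  have hlb0 : 0 < lb := Real.log_pos (by exact_mod_cast hb)
  have hq0 : (0 : ℝ) < q := by exact_mod_cast (by omega : 0 < q)
  have hlq : 0 < lb * q := by positivity
  set X := b ^ q - 1 with hX
  have hbr : (2 : ℝ) ≤ b := by exact_mod_cast hb
  have hbq : (b : ℝ) ^ q = Real.exp (lb * q) := by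
    rw [mul_comm, Real.exp_nat_mul, hlb, Real.exp_log (by linarith)]
  have hXr : (X : ℝ) = (b : ℝ) ^ q - 1 := by
    rw [hX, Nat.cast_sub (Nat.one_le_pow _ _ (by omega))]
    push_cast
    rfl
  have hbig : 1 / δ ≤ (b : ℝ) ^ q := by
    rw [hbq]
    have e1 := Real.add_one_le_exp (lb * q)
    have e2 : δ * (lb * q) ≤ 1 * (lb * q) := mul_le_mul_of_nonneg_right (by linarith) hlq.le
    linarith
  have hXge : (1 - δ) * (b : ℝ) ^ q ≤ X := by
    rw [hXr]
    rw [div_le_iff₀ hδ] at hbig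
    linarith
  have hXnn : (0 : ℝ) ≤ X := Nat.cast_nonneg _
  have hXle : (X : ℝ) ≤ (b : ℝ) ^ q := by linarith
  set S := Real.exp (δ * (lb * q)) with hS
  have hS0 : 0 < S := Real.exp_pos _
  have hSX : S ≤ X := by
    refine le_trans ?_ hXge
    rw [hbq]
    have e1 : Real.exp (lb * q) = Real.exp ((1 - δ) * (lb * q)) * S := by
      rw [hS, ← Real.exp_add]; ring_nf
    rw [e1]
    have e2 : 2 ≤ Real.exp ((1 - δ) * (lb * q)) := by
      have := Real.add_one_le_exp ((1 - δ) * (lb * q))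
      have e3 : δ * (lb * q) ≤ (1 - δ) * (lb * q) := mul_le_mul_of_nonneg_right (by linarith) hlq.le
      linarith
    nlinarith
  rw [AA_eq hb h2]
  have hsub : SMz q S ⊆ SMz q (X : ℝ) := by
    intro n hn
    rw [mem_SMz hS0.le] at hn
    rw [mem_SMz hXnn]
    exact ⟨hn.1, hn.2.trans hSX⟩
  refine le_trans ?_ (Finset.sum_le_sum_of_subset_of_nonneg hsub fun i _ _ => by
    split_ifs <;> positivity)
  have hterm : ∀ s ∈ SMz q S, (b : ℝ) ^ q * ((1 - δ) ^ 2 / (lb * q)) * copHom b s - q ≤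
      (if s.Coprime b then (1 : ℝ) else 0) *
        (((Finset.Ioc 0 (X / s)).filter (fun l => l.Prime ∧ q < l)).card : ℝ) := by
    intro s hs
    rw [mem_SMz hS0.le] at hs
    obtain ⟨hs1, hsS⟩ := hs
    have hs0 : 0 < s := SM_pos hs1
    have hs0' : (0 : ℝ) < s := by exact_mod_cast hs0
    have hs1' : (1 : ℝ) ≤ s := by exact_mod_cast hs0
    rw [copHom_apply]
    by_cases hc : s.Coprime b
    · rw [if_pos hc, if_pos hc, one_mul]
      refine le_trans ?_ (le_card_inner _ _)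
      set x := (X : ℝ) / s with hx
      have hfl : X / s = ⌊x⌋₊ := by rw [hx, Nat.floor_div_eq_div]
      have hxlow : Real.exp ((1 - 2 * δ) * (lb * q)) ≤ x := by
        rw [hx, le_div_iff₀ hs0', hXr, hbq]
        have e1 : Real.exp (lb * q) = Real.exp ((1 - 2 * δ) * (lb * q)) *
            (Real.exp (δ * (lb * q)) * Real.exp (δ * (lb * q))) := by
          rw [← Real.exp_add, ← Real.exp_add]; ring_nf
        rw [e1, ← hS]
        have e2 : 1 ≤ Real.exp ((1 - 2 * δ) * (lb * q)) := Real.one_le_exp (by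
          apply mul_nonneg (by linarith) hlq.le)
        have e3 : 4 ≤ S := by
          have := Real.add_one_le_exp (δ * (lb * q))
          linarith
        have e4 : Real.exp ((1 - 2 * δ) * (lb * q)) * s ≤ Real.exp ((1 - 2 * δ) * (lb * q)) * S :=
          mul_le_mul_of_nonneg_left hsS (Real.exp_pos _).le
        have e5 : 1 ≤ Real.exp ((1 - 2 * δ) * (lb * q)) * S := by nlinarith
        have e6 : Real.exp ((1 - 2 * δ) * (lb * q)) * S * 4 ≤
            Real.exp ((1 - 2 * δ) * (lb * q)) * S * S :=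
          mul_le_mul_of_nonneg_left e3 (by positivity)
        nlinarith
      have hx0' : 0 < x := lt_of_lt_of_le (Real.exp_pos _) hxlow
      have hx1' : 1 < x := lt_of_lt_of_le (by
        have e1 := Real.add_one_le_exp ((1 - 2 * δ) * (lb * q))
        have e2 : δ * (lb * q) ≤ (1 - 2 * δ) * (lb * q) :=
          mul_le_mul_of_nonneg_right (by linarith) hlq.le
        linarith : (1 : ℝ) < Real.exp ((1 - 2 * δ) * (lb * q))) hxlow
      have hlogx : Real.log x ≤ lb * q := by
        rw [Real.log_le_iff_le_exp hx0', ← hbq, hx, div_le_iff₀ hs0']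
        have : (0 : ℝ) < (b : ℝ) ^ q := by positivity
        nlinarith
      have hlogx0 : 0 < Real.log x := Real.log_pos hx1'
      have h3 := hx0 x hxlow
      rw [lt_div_iff₀ hx0'] at h3
      have h4 : (1 - δ) * x / (lb * q) ≤ (Nat.primeCounting (X / s) : ℝ) := by
        rw [hfl, div_le_iff₀ hlq]
        have : (Nat.primeCounting ⌊x⌋₊ : ℝ) * Real.log x ≤
          (Nat.primeCounting ⌊x⌋₊ : ℝ) * (lb * q) := mul_le_mul_of_nonneg_left hlogx (by positivity)
        linarith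
      have h5 : (1 - δ) * (b : ℝ) ^ q * (s : ℝ)⁻¹ ≤ x := by
        rw [hx, div_eq_mul_inv]
        exact mul_le_mul_of_nonneg_right hXge (by positivity)
      have h6 : (b : ℝ) ^ q * ((1 - δ) ^ 2 / (lb * q)) * (s : ℝ)⁻¹ ≤ (1 - δ) * x / (lb * q) := by
        have e1 : (b : ℝ) ^ q * ((1 - δ) ^ 2 / (lb * q)) * (s : ℝ)⁻¹ =
            (1 - δ) * ((1 - δ) * (b : ℝ) ^ q * (s : ℝ)⁻¹) / (lb * q) := by ring
        rw [e1]
        apply div_le_div_of_nonneg_right _ hlq.le
        exact mul_le_mul_of_nonneg_left h5 (by linarith)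
      linarith
    · rw [if_neg hc, if_neg hc]
      simp
  refine le_trans ?_ (Finset.sum_le_sum hterm)
  rw [Finset.sum_sub_distrib, ← Finset.mul_sum, Finset.sum_const, nsmul_eq_mul]
  have hcard : ((SMz q S).card : ℝ) * q ≤ S * q := by
    apply mul_le_mul_of_nonneg_right _ hq0.le
    have h5 : (SMz q S).card ≤ (Finset.Ioc 0 ⌊S⌋₊).card := by
      apply Finset.card_le_card
      intro n hn
      rw [mem_SMz hS0.le] at hn
      rw [Finset.mem_Ioc]
      exact ⟨SM_pos hn.1, (Nat.le_floor_iff hS0.le).2 hn.2⟩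
    rw [Nat.card_Ioc, Nat.sub_zero] at h5
    exact le_trans (by exact_mod_cast h5) (Nat.floor_le hS0.le)
  have hV := VB_le b q hS0
  have hSm : S ^ (-(1 / 2) : ℝ) = Real.exp (-(δ * (lb * q) / 2)) := by
    rw [hS, ← Real.exp_mul]; ring_nf
  rw [hSm] at hV
  have h7 : (b : ℝ) ^ q * ((1 - δ) ^ 2 / (lb * q)) *
      (VB b q - Real.exp (-(δ * (lb * q) / 2)) * ZZ q) ≤
      (b : ℝ) ^ q * ((1 - δ) ^ 2 / (lb * q)) * ∑ s ∈ SMz q S, copHom b s := by
    apply mul_le_mul_of_nonneg_left (by linarith)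
    have : 0 ≤ (1 - δ) ^ 2 / (lb * q) := by positivity
    positivity
  have h8 : (b : ℝ) ^ q * (q * Real.exp (-((1 - δ) * (lb * q)))) = S * q := by
    rw [hbq, hS]
    have : Real.exp (lb * q) * Real.exp (-((1 - δ) * (lb * q))) = Real.exp (δ * (lb * q)) := by
      rw [← Real.exp_add]; ring_nf
    rw [← this]; ring
  have e9 : (b : ℝ) ^ q * ((1 - δ) ^ 2 / (lb * q) *
      (VB b q - Real.exp (-(δ * (lb * q) / 2)) * ZZ q) - q * Real.exp (-((1 - δ) * (lb * q)))) =
      (b : ℝ) ^ q * ((1 - δ) ^ 2 / (lb * q)) *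
      (VB b q - Real.exp (-(δ * (lb * q) / 2)) * ZZ q) -
      (b : ℝ) ^ q * (q * Real.exp (-((1 - δ) * (lb * q)))) := by ring
  rw [e9, h8]
  linarith


end Pool.Agent.N420.MA
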