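import Mathlib
import Pool.Agent.N420.MA.Rate0

set_option autoImplicit false

/-!
# The mean of the indicator of a prime rough part of the low digits, with an error term
-/

namespace Pool.Agent.N420.MA

open Filter Topology
open scoped Real
open Pool.Agent.W66 Pool.Agent.W66L
open Pool.Agent.H305R2 (ZZ VV ZZ_nonneg VV_nonneg log_nat_tendsto)
open Pool.Agent.TH888.R (ZZ_rate VV_rate)

lemma alg1 {B ρ u V E : ℝ} (hB : B ≠ 0) (hρ : ρ ≠ 0) :
    B * (u * (V * ρ) + E) = (u * V + E / ρ) * (B * ρ) := by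
  field_simp

lemma alg2 {B ρ u V E F : ℝ} (hρ : ρ ≠ 0) :
    (u * (V - E / ρ) - 1 / ρ * F) * (B * ρ) = B * (u * (V * ρ - E) - F) := by
  field_simp

lemma alg_up {δ a p ρ G C1 V l D0 E : ℝ} (hδ0 : 0 < δ) (hδ1 : δ < 1 / 4) (ha : 0 < a) (hp : 0 < p)
    (hρ : 0 < ρ) (hG : 0 < G) (hC1 : 0 < C1) (hV0 : 0 ≤ V) (hV : V ≤ G * l + C1)
    (hδl : δ * l = D0) (hE : E ≤ 1 / p) :
    (1 + δ) / ((1 - 2 * δ) * (a * p)) * V + E / ρ ≤
      G / a * (l / p) + ((6 * D0 * G + 3 * C1) / a + 1 / ρ) * (1 / p) := by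
  have hap : 0 < a * p := by positivity
  have h1p : 0 < 1 / p := by positivity
  have h9 : (1 + δ) / ((1 - 2 * δ) * (a * p)) ≤ (1 + 6 * δ) * (1 / (a * p)) := by
    rw [div_le_iff₀ (mul_pos (by linarith) hap)]
    have : (1 + 6 * δ) * (1 / (a * p)) * ((1 - 2 * δ) * (a * p)) = (1 + 6 * δ) * (1 - 2 * δ) := by
      field_simp
    rw [this]
    nlinarith
  have h10 : (1 + δ) / ((1 - 2 * δ) * (a * p)) * V ≤
      (1 + 6 * δ) * (1 / (a * p)) * (G * l + C1) :=
    mul_le_mul h9 hV hV0 (by positivity)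
  have h11 : (1 + 6 * δ) * (1 / (a * p)) * (G * l + C1) =
      G / a * (l / p) + (6 * (δ * l) * G + (1 + 6 * δ) * C1) / a * (1 / p) := by
    field_simp
    ring
  rw [hδl] at h11
  have h12 : (6 * D0 * G + (1 + 6 * δ) * C1) / a * (1 / p) ≤ (6 * D0 * G + 3 * C1) / a * (1 / p) := by
    refine mul_le_mul_of_nonneg_right (div_le_div_of_nonneg_right ?_ ha.le) h1p.le
    have : (1 + 6 * δ) * C1 ≤ 5 / 2 * C1 := mul_le_mul_of_nonneg_right (by linarith) hC1.le
    linarith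
  have h13 : E / ρ ≤ 1 / ρ * (1 / p) := by
    rw [div_eq_mul_inv, mul_comm, ← one_div]
    exact mul_le_mul_of_nonneg_left hE (by positivity)
  rw [add_mul]
  linarith

lemma alg_low {δ a p ρ G C1 V l D0 E F : ℝ} (hδ0 : 0 < δ) (hδ1 : δ < 1 / 4) (ha : 0 < a) (hp : 0 < p)
    (hρ : 0 < ρ) (hG : 0 < G) (hD0 : 0 < D0) (hC1 : 0 < C1) (hV0 : 0 ≤ V) (hV : G * l - C1 ≤ V)
    (hδl : δ * l = D0) (hE0 : 0 ≤ E) (hE : E ≤ 1) (hF : F ≤ 1 / p) :
    G / a * (l / p) - ((6 * D0 * G + 3 * C1) / a + 1 / ρ + 1 / (ρ * a)) * (1 / p) ≤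
      (1 - δ) ^ 2 / (a * p) * (V - E / ρ) - 1 / ρ * F := by
  have hap : 0 < a * p := by positivity
  have h9 : (1 - 2 * δ) * (G * l - C1) ≤ (1 - δ) ^ 2 * V := by
    calc (1 - 2 * δ) * (G * l - C1) ≤ (1 - 2 * δ) * V :=
          mul_le_mul_of_nonneg_left hV (by linarith)
      _ ≤ (1 - δ) ^ 2 * V := mul_le_mul_of_nonneg_right (by nlinarith) hV0
  have h10 : (1 - 2 * δ) * (G * l - C1) = G * l - 2 * (δ * l) * G - (1 - 2 * δ) * C1 := by ring
  rw [hδl] at h10
  have h11 : G * l - (6 * D0 * G + 3 * C1) ≤ (1 - δ) ^ 2 * V := by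
    have t1 : 0 < D0 * G := mul_pos hD0 hG
    have t2 : 0 < δ * C1 := mul_pos hδ0 hC1
    linarith
  have h12 : (1 - δ) ^ 2 * (E / ρ) ≤ 1 / ρ := by
    have t1 : (1 - δ) ^ 2 ≤ 1 := pow_le_one₀ (by linarith) (by linarith)
    have t3 : E / ρ ≤ 1 / ρ := div_le_div_of_nonneg_right hE hρ.le
    have t4 : 0 ≤ E / ρ := by positivity
    calc (1 - δ) ^ 2 * (E / ρ) ≤ 1 * (E / ρ) := mul_le_mul_of_nonneg_right t1 t4
      _ ≤ _ := by rw [one_mul]; exact t3
  have h13 : 1 / ρ * F ≤ 1 / ρ * (1 / p) := mul_le_mul_of_nonneg_left hF (by positivity)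
  have h14 : (1 - δ) ^ 2 / (a * p) * (V - E / ρ) =
      ((1 - δ) ^ 2 * V - (1 - δ) ^ 2 * (E / ρ)) * (1 / (a * p)) := by ring
  have h15 : (G * l - (6 * D0 * G + 3 * C1) - 1 / ρ) * (1 / (a * p)) ≤
      (1 - δ) ^ 2 / (a * p) * (V - E / ρ) := by
    rw [h14]
    exact mul_le_mul_of_nonneg_right (by linarith) (by positivity)
  have h16 : (G * l - (6 * D0 * G + 3 * C1) - 1 / ρ) * (1 / (a * p)) =
      G / a * (l / p) - ((6 * D0 * G + 3 * C1) / a + 1 / (ρ * a)) * (1 / p) := by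
    field_simp
    ring
  have h17 : ((6 * D0 * G + 3 * C1) / a + 1 / ρ + 1 / (ρ * a)) * (1 / p) =
      ((6 * D0 * G + 3 * C1) / a + 1 / (ρ * a)) * (1 / p) + 1 / ρ * (1 / p) := by ring
  rw [h17]
  linarith

/-- **The mean with error term.** -/
theorem mq_rate {b : ℕ} (hb : 2 ≤ b) : ∃ K : ℝ, 0 < K ∧ ∃ P : ℕ, ∀ q ≥ P,
    |mq b q - Real.exp Real.eulerMascheroniConstant / Real.log b * (Real.log q / q)| ≤ K / q := by
  obtain ⟨C, x0, hC, hx03, hR⟩ := pi_rate
  obtain ⟨C1, hC1, hV⟩ := VV_rate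
  obtain ⟨C2, hC2, hZ⟩ := ZZ_rate
  set G := Real.exp Real.eulerMascheroniConstant with hG
  have hG0 : 0 < G := Real.exp_pos _
  set a := Real.log b with ha
  have ha0 : 0 < a := Real.log_pos (by exact_mod_cast hb)
  set ρ := (b.totient : ℝ) / b with hρ
  have hρ0 : 0 < ρ := tot_ratio_pos hb
  set D0 := 2 / a * (C2 + 1) with hD0
  have hD0p : 0 < D0 := by positivity
  have e2 : ∀ᶠ p : ℕ in atTop, 8 * D0 + 2 ≤ Real.log p := log_nat_tendsto.eventually_ge_atTop _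
  have e3 : ∀ᶠ p : ℕ in atTop, 2 * x0 / a ≤ (p : ℝ) := tendsto_natCast_atTop_atTop.eventually_ge_atTop _
  have e4 : ∀ᶠ p : ℕ in atTop, 4 * C / (D0 * a) * Real.log p ≤ p := by
    have h1 := (Real.isLittleO_log_id_atTop).bound (show (0 : ℝ) < 1 / (4 * C / (D0 * a)) by positivity)
    have h2 : ∀ᶠ x : ℝ in atTop, 4 * C / (D0 * a) * Real.log x ≤ x := by
      filter_upwards [h1, eventually_ge_atTop 1] with x hx hx1
      rw [Real.norm_of_nonneg (Real.log_nonneg hx1), id, Real.norm_of_nonneg (by linarith),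
        one_div_mul_eq_div, le_div_iff₀ (by positivity)] at hx
      linarith
    exact tendsto_natCast_atTop_atTop.eventually h2
  have esq : ∀ c : ℝ, 0 < c → ∀ᶠ p : ℕ in atTop, c * Real.log p ^ 2 ≤ (p : ℝ) := by
    intro c hc
    have h1 := (Real.isLittleO_pow_log_id_atTop (n := 2)).bound (show (0 : ℝ) < 1 / c by positivity)
    have h2 : ∀ᶠ x : ℝ in atTop, c * Real.log x ^ 2 ≤ x := by
      filter_upwards [h1, eventually_ge_atTop 1] with x hx hx1
      rw [Real.norm_of_nonneg (by positivity), id, Real.norm_of_nonneg (by linarith),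
        one_div_mul_eq_div, le_div_iff₀ hc] at hx
      linarith
    exact tendsto_natCast_atTop_atTop.eventually h2
  have e5 := esq (1 / D0) (by positivity)
  have e6 := esq 1 one_pos
  have e7 : ∀ᶠ p : ℕ in atTop, (p : ℝ) ^ 2 ≤ Real.exp (a * p / 2) := by
    have h1 := (Real.tendsto_pow_mul_exp_neg_atTop_nhds_zero 2).comp
      ((tendsto_natCast_atTop_atTop (R := ℝ)).const_mul_atTop (show 0 < a / 2 by positivity))
    have h2 := h1.const_mul (1 / (a / 2) ^ 2)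
    rw [mul_zero] at h2
    filter_upwards [h2.eventually (gt_mem_nhds (show (0 : ℝ) < 1 by norm_num))] with p hp
    simp only [Function.comp] at hp
    have h3 : 1 / (a / 2) ^ 2 * ((a / 2 * (p : ℝ)) ^ 2 * Real.exp (-(a / 2 * p))) =
        (p : ℝ) ^ 2 * Real.exp (-(a / 2 * p)) := by field_simp
    rw [h3, Real.exp_neg, ← div_eq_mul_inv, div_lt_one (Real.exp_pos _)] at hp
    have h4 : a / 2 * (p : ℝ) = a * p / 2 := by ring
    rw [h4] at hp
    exact hp.le
  obtain ⟨P, hP⟩ := eventually_atTop.1 (e2.and (e3.and (e4.and (e5.and (e6.and (e7.and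
    ((eventually_ge_atTop b).and (eventually_ge_atTop 3))))))))
  refine ⟨(6 * D0 * G + 3 * C1) / a + 2 / ρ + 1 / (ρ * a), by positivity, P, fun p hpP => ?_⟩
  obtain ⟨h2, h3, h4, h5, h6, h7, hpb, hp3⟩ := hP p hpP
  have hp3' : (3 : ℝ) ≤ p := by exact_mod_cast hp3
  have hp0 : (0 : ℝ) < p := by linarith
  set l := Real.log p with hl
  have hl2 : 2 ≤ l := by linarith
  have hl0 : 0 < l := by linarith
  rw [one_mul] at h6
  set δ := D0 / l with hδ
  have hδ0 : 0 < δ := by positivity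
  have hδh : δ ≤ 1 / 8 := by
    rw [hδ, div_le_iff₀ hl0]
    linarith
  have hδ1 : δ < 1 / 4 := by linarith
  have hap : 0 < a * p := by positivity
  have hδa : δ * (a * p) = 2 * (C2 + 1) * (p / l) := by
    rw [hδ, hD0]
    field_simp
  have hpl : l ≤ p / l := by
    rw [le_div_iff₀ hl0, ← sq]
    exact h6
  have hX3 : 3 ≤ δ * (a * p) := by
    rw [hδa]
    nlinarith
  have hXδ : 1 / δ ≤ δ * (a * p) := by
    rw [div_le_iff₀ hδ0]
    have e : δ * (a * p) * δ = 2 * (C2 + 1) * (D0 * p / l ^ 2) := by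
      rw [hδa, hδ]
      field_simp
    rw [e]
    have h8 : 1 ≤ D0 * p / l ^ 2 := by
      rw [le_div_iff₀ (by positivity)]
      rw [one_div_mul_eq_div, div_le_iff₀ hD0p] at h5
      linarith
    nlinarith
  have hlow : a * p / 2 ≤ (1 - 2 * δ) * (a * p) := by
    have : 0 ≤ (1 / 2 - 2 * δ) * (a * p) := mul_nonneg (by linarith) hap.le
    linarith
  have hxr : ∀ x : ℝ, Real.exp ((1 - 2 * δ) * (a * p)) ≤ x →
      |(Nat.primeCounting ⌊x⌋₊ : ℝ) * Real.log x / x - 1| < δ := by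
    intro x hx
    have hx1 : 0 < x := lt_of_lt_of_le (Real.exp_pos _) hx
    have h8 : a * p / 2 ≤ Real.log x := by
      refine hlow.trans ?_
      rw [Real.le_log_iff_exp_le hx1]
      exact hx
    have h9 : x0 ≤ x := by
      have h10 : x0 ≤ a * p / 2 := by
        rw [div_le_iff₀ ha0] at h3
        linarith
      have h11 := Real.log_le_sub_one_of_pos hx1
      linarith
    have h12 : 0 < a * p / 2 := by positivity
    refine lt_of_le_of_lt (hR x h9) ?_
    calc C / Real.log x ≤ C / (a * p / 2) := by gcongr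
      _ < δ := by
          rw [hδ, div_lt_div_iff₀ (by positivity) hl0]
          rw [div_mul_eq_mul_div, div_le_iff₀ (by positivity)] at h4
          have : 0 < C * l := by positivity
          linarith
  have hup := AA_upper' hb hδ0 hδ1 hpb hX3 (fun x hx => by linarith [(abs_lt.1 (hxr x hx)).2])
  have hlo := AA_lower' hb hδ0 hδ1 hpb hX3 hXδ (fun x hx => by linarith [(abs_lt.1 (hxr x hx)).1])
  rw [← ha] at hup hlo
  rw [VB_eq hb hpb, ← hρ] at hup hlo
  set E := Real.exp (-(δ * (a * p) / 2)) * ZZ p with hE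
  have hE0 : 0 ≤ E := mul_nonneg (Real.exp_pos _).le (ZZ_nonneg p)
  have hZp := hZ p (by omega)
  have hE1 : E ≤ 1 / p := by
    have h8 : δ * (a * p) / 2 = (C2 + 1) * (p / l) := by
      rw [hδa]; ring
    calc E ≤ Real.exp (-((C2 + 1) * (p / l))) * Real.exp (C2 * (p / l)) := by
          rw [hE, h8]
          exact mul_le_mul_of_nonneg_left hZp (Real.exp_pos _).le
      _ = Real.exp (-(p / l)) := by rw [← Real.exp_add]; congr 1; ring
      _ ≤ Real.exp (-l) := Real.exp_le_exp.2 (neg_le_neg hpl)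
      _ = 1 / p := by rw [Real.exp_neg, hl, Real.exp_log hp0, one_div]
  have hF : (p : ℝ) * Real.exp (-((1 - δ) * (a * p))) ≤ 1 / p := by
    have h8 : Real.exp (-((1 - δ) * (a * p))) ≤ Real.exp (-(a * p / 2)) := by
      refine Real.exp_le_exp.2 (neg_le_neg (hlow.trans ?_))
      exact mul_le_mul_of_nonneg_right (by linarith) hap.le
    have h9 : Real.exp (-(a * p / 2)) ≤ 1 / (p : ℝ) ^ 2 := by
      rw [Real.exp_neg, ← one_div]
      exact one_div_le_one_div_of_le (by positivity) h7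
    calc (p : ℝ) * Real.exp (-((1 - δ) * (a * p))) ≤ p * (1 / (p : ℝ) ^ 2) :=
          mul_le_mul_of_nonneg_left (h8.trans h9) hp0.le
      _ = 1 / p := by field_simp
  obtain ⟨hV1, hV2⟩ := abs_le.1 (hV p (by omega))
  rw [← hl] at hV1 hV2
  have hbp : (0 : ℝ) < (b : ℝ) ^ p := by
    have : (0 : ℝ) < b := by exact_mod_cast (by omega : 0 < b)
    positivity
  have hmq : mq b p = AA b p / ((b : ℝ) ^ p * ρ) := by
    unfold mq
    rw [tot_pow hb (by omega)]
  have hden : 0 < (b : ℝ) ^ p * ρ := by positivity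
  have hV0 := VV_nonneg p
  have h1p : 0 < 1 / (p : ℝ) := by positivity
  -- upper bound
  have hδl : δ * l = D0 := by rw [hδ]; field_simp
  have hU : mq b p ≤ G / a * (l / p) + ((6 * D0 * G + 3 * C1) / a + 1 / ρ) * (1 / p) := by
    have h8 : mq b p ≤ (1 + δ) / ((1 - 2 * δ) * (a * p)) * VV p + E / ρ := by
      rw [hmq, div_le_iff₀ hden]
      refine hup.trans (le_of_eq ?_)
      exact alg1 hbp.ne' hρ0.ne'
    exact h8.trans (alg_up hδ0 hδ1 ha0 hp0 hρ0 hG0 hC1 hV0 (by linarith) hδl hE1)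
  -- lower bound
  have hL : G / a * (l / p) - ((6 * D0 * G + 3 * C1) / a + 1 / ρ + 1 / (ρ * a)) * (1 / p) ≤ mq b p := by
    have h8 : (1 - δ) ^ 2 / (a * p) * (VV p - E / ρ) - (1 / ρ) * (p * Real.exp (-((1 - δ) * (a * p)))) ≤
        mq b p := by
      rw [hmq, le_div_iff₀ hden]
      refine le_trans (le_of_eq ?_) hlo
      exact alg2 hρ0.ne'
    refine le_trans ?_ h8
    exact alg_low hδ0 hδ1 ha0 hp0 hρ0 hG0 hD0p hC1 hV0 (by linarith) hδl hE0
      (hE1.trans (by rw [div_le_one hp0]; linarith)) hF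
  have hK : ((6 * D0 * G + 3 * C1) / a + 2 / ρ + 1 / (ρ * a)) / (p : ℝ) =
      ((6 * D0 * G + 3 * C1) / a + 1 / ρ) * (1 / p) + (1 / ρ + 1 / (ρ * a)) * (1 / p) := by ring
  have hK2 : ((6 * D0 * G + 3 * C1) / a + 2 / ρ + 1 / (ρ * a)) / (p : ℝ) =
      ((6 * D0 * G + 3 * C1) / a + 1 / ρ + 1 / (ρ * a)) * (1 / p) + 1 / ρ * (1 / p) := by ring
  have t1 : 0 < (1 / ρ + 1 / (ρ * a)) * (1 / (p : ℝ)) := by positivity
  have t2 : 0 < 1 / ρ * (1 / (p : ℝ)) := by positivity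
  rw [abs_le]
  constructor <;> linarith

end Pool.Agent.N420.MA
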