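import Mathlib
import Pool.Agent.W66.LS
import Pool.Agent.TH888.R.Row

set_option autoImplicit false

/-!
# Row sums of the correlation matrix of the low digits over sets of primes
-/

namespace Pool.Agent.N420.MA

open Filter Topology Finset MeasureTheory
open scoped Real
open Pool.Agent.W66 Pool.Agent.W66L
open Pool.Agent.H305R2 (roughPart log_nat_tendsto)

/-- the row sums of the correlation matrix -/
theorem CO_row_set {b : ℕ} (hb : 2 ≤ b) : ∃ κ C : ℝ, 0 < κ ∧ 0 < C ∧ ∃ P : ℕ, 3 ≤ P ∧ ∀ q ≥ P,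
    ∀ T : Finset ℕ, (∀ p ∈ T, p.Prime ∧ P ≤ p ∧ p < q) → ∑ p ∈ T, |CO b p q| ≤
        C * ((Real.log q / q) *
          (1 + ∑ p ∈ T.filter (fun p : ℕ => κ * q / Real.log q < (p : ℝ)), Real.log p / p)) := by
  classical
  obtain ⟨κ, K1, hκ, hK1, hfar⟩ := rough_L1 hb
  obtain ⟨P1, hP1⟩ := eventually_atTop.1 hfar
  obtain ⟨K2, hK2, hmid⟩ := mid_count hb
  obtain ⟨P2, hP2⟩ := eventually_atTop.1 hmid
  obtain ⟨K3, hK3, hnear⟩ := near_count hb
  obtain ⟨P3, hP3⟩ := eventually_atTop.1 hnear
  obtain ⟨K4, hK4, hmq⟩ := mq_le hb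
  obtain ⟨P4, hP4⟩ := eventually_atTop.1 hmq
  have hρ := tot_ratio_pos hb
  set ρ := (b.totient : ℝ) / b with hρdef
  set J : ℕ → ℕ → ℝ := fun p q => if 1 ≤ p then CO b p q else 0 with hJ
  set K := K1 / ρ + (K2 / ρ + K4 ^ 2) + (K3 / ρ + K4 + K4 ^ 2) with hK
  have hKpos : 0 < K := by positivity
  have hw0 : ∀ m : ℕ, 0 ≤ Real.log m / m := fun m =>
    div_nonneg (Real.log_natCast_nonneg m) (Nat.cast_nonneg m)
  have hanti : ∀ p q : ℕ, 3 ≤ p → p ≤ q → Real.log q / q ≤ Real.log p / p := by
    intro p q hp hpq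
    apply Real.log_div_self_antitoneOn
    · show Real.exp 1 ≤ (p : ℝ)
      have : (3 : ℝ) ≤ p := by exact_mod_cast hp
      linarith [Real.exp_one_lt_d9]
    · show Real.exp 1 ≤ (q : ℝ)
      have : (3 : ℝ) ≤ q := by exact_mod_cast hp.trans hpq
      linarith [Real.exp_one_lt_d9]
    · exact_mod_cast hpq
  obtain ⟨C, hC, P', hP', hP3', hrow⟩ := Pool.Agent.TH888.R.row_set (κ := κ) (K := K) hκ hKpos hb J
    (P1 + P2 + P3 + P4 + 3)
    (by
      intro q hq p hp
      have hlq : 0 ≤ Real.log q / (q : ℝ) ^ 2 :=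
        div_nonneg (Real.log_natCast_nonneg q) (by positivity)
      simp only [hJ]
      split_ifs with hp1
      · haveI : NeZero b := ⟨by omega⟩
        obtain ⟨h1, h2⟩ := hP1 q (by omega) ⌊κ * q / Real.log q⌋₊ rfl
        have hpk : p ≤ ⌊κ * q / Real.log q⌋₊ := Nat.le_floor hp
        have h3 := far_sum (p := p) hb hp1 hpk h1
        have hφ := tot_pow_pos hb q
        unfold CO
        rw [abs_div, abs_of_pos hφ, div_le_iff₀ hφ, tot_pow hb (by omega)]
        refine (h3.trans h2).trans ?_
        rw [← hρdef]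
        have hKK : K1 ≤ K * ρ := by
          have : K1 / ρ ≤ K := by rw [hK]; have : 0 < K2 / ρ := by positivity
                                  have : 0 < K3 / ρ := by positivity
                                  nlinarith [sq_nonneg K4]
          rwa [div_le_iff₀ hρ] at this
        calc K1 * ((b : ℝ) ^ q * (Real.log q / (q : ℝ) ^ 2)) ≤
            (K * ρ) * ((b : ℝ) ^ q * (Real.log q / (q : ℝ) ^ 2)) :=
              mul_le_mul_of_nonneg_right hKK (by positivity)
          _ = _ := by ring
      · rw [abs_zero]; exact mul_nonneg hKpos.le hlq)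
    (by
      intro p hp q hq
      have hp1 : 1 ≤ p := by omega
      simp only [hJ]
      rw [if_pos hp1, CO_eq hb hp1 (by omega), tot_pow hb (by omega), ← hρdef]
      have h1 := hP2 p (by omega) q hq
      have h2 := hP4 p (by omega)
      have h3 := hP4 q (by omega)
      have hm1 := mq_nonneg b p
      have hm2 := mq_nonneg b q
      have hwp := hw0 p
      have hwq := hw0 q
      have hJC0 : 0 ≤ JC b p q :=
        Finset.sum_nonneg fun m _ => mul_nonneg (rpi_nonneg _ _) (rpi_nonneg _ _)
      have hbq : (0 : ℝ) < (b : ℝ) ^ q := by positivity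
      have h4 : JC b p q / ((b : ℝ) ^ q * ρ) ≤ K2 / ρ * ((Real.log p / p) * (Real.log q / q)) := by
        rw [div_le_iff₀ (by positivity)]
        refine h1.trans (le_of_eq ?_)
        field_simp
      have h4' : 0 ≤ JC b p q / ((b : ℝ) ^ q * ρ) := by positivity
      have h5 : mq b p * mq b q ≤ K4 ^ 2 * ((Real.log p / p) * (Real.log q / q)) := by
        calc mq b p * mq b q ≤ (K4 * (Real.log p / p)) * (K4 * (Real.log q / q)) :=
              mul_le_mul h2 h3 hm2 (by positivity)
          _ = _ := by ring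
      have h5' : 0 ≤ mq b p * mq b q := mul_nonneg hm1 hm2
      have h6 : 0 ≤ (Real.log p / p) * (Real.log q / q) := mul_nonneg hwp hwq
      have hKK : K2 / ρ + K4 ^ 2 ≤ K := by
        rw [hK]
        have : 0 < K1 / ρ := by positivity
        have : 0 < K3 / ρ := by positivity
        nlinarith [sq_nonneg K4]
      calc |JC b p q / ((b : ℝ) ^ q * ρ) - mq b p * mq b q| ≤
          JC b p q / ((b : ℝ) ^ q * ρ) + mq b p * mq b q := by
            rw [abs_le]; constructor <;> linarith
        _ ≤ (K2 / ρ + K4 ^ 2) * ((Real.log p / p) * (Real.log q / q)) := by linarith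
        _ ≤ _ := mul_le_mul_of_nonneg_right hKK h6)
    (by
      intro p hp q hpq hq2
      have hp1 : 1 ≤ p := by omega
      simp only [hJ]
      rw [if_pos hp1, CO_eq hb hp1 hpq.le]
      have h1 := hP3 p (by omega) q hpq hq2
      have h2 := hP4 p (by omega)
      have h3 := hP4 q (by omega)
      have hm1 := mq_nonneg b p
      have hm2 := mq_nonneg b q
      have hwp := hw0 p
      have hwq := hw0 q
      have hJC0 : 0 ≤ JC b p q :=
        Finset.sum_nonneg fun m _ => mul_nonneg (rpi_nonneg _ _) (rpi_nonneg _ _)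
      have hφ := tot_pow_pos hb q
      have hφp := tot_pow_pos hb p
      have hbqp : (0 : ℝ) < (b : ℝ) ^ (q - p) := by
        have : (0 : ℝ) < b := by exact_mod_cast (by omega : 0 < b)
        positivity
      have e1 : AA b p / ((b ^ q).totient : ℝ) = ((b : ℝ) ^ (q - p))⁻¹ * mq b p := by
        rw [tot_lift hb hp1 hpq.le]
        unfold mq
        field_simp
      have h4 : JC b p q / ((b ^ q).totient : ℝ) ≤
          ((b : ℝ) ^ (q - p))⁻¹ * mq b p + K3 / ρ * (Real.log p / p) ^ 2 := by
        rw [← e1, div_le_iff₀ hφ, add_mul, div_mul_cancel₀ _ hφ.ne']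
        refine h1.trans ?_
        rw [tot_pow hb (by omega), ← hρdef]
        apply le_of_eq
        field_simp
      have h4' : 0 ≤ JC b p q / ((b ^ q).totient : ℝ) := by positivity
      have h5 : mq b p * mq b q ≤ K4 ^ 2 * (Real.log p / p) ^ 2 := by
        calc mq b p * mq b q ≤ (K4 * (Real.log p / p)) * (K4 * (Real.log q / q)) :=
              mul_le_mul h2 h3 hm2 (by positivity)
          _ ≤ (K4 * (Real.log p / p)) * (K4 * (Real.log p / p)) := by
              apply mul_le_mul_of_nonneg_left _ (by positivity)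
              exact mul_le_mul_of_nonneg_left (hanti p q (by omega) hpq.le) hK4.le
          _ = _ := by ring
      have h5' : 0 ≤ mq b p * mq b q := mul_nonneg hm1 hm2
      have h6 : ((b : ℝ) ^ (q - p))⁻¹ * mq b p ≤ K4 * (((b : ℝ) ^ (q - p))⁻¹ * (Real.log p / p)) := by
        calc ((b : ℝ) ^ (q - p))⁻¹ * mq b p ≤ ((b : ℝ) ^ (q - p))⁻¹ * (K4 * (Real.log p / p)) :=
              mul_le_mul_of_nonneg_left h2 (by positivity)
          _ = _ := by ring
      have h7 : 0 ≤ ((b : ℝ) ^ (q - p))⁻¹ * (Real.log p / p) := mul_nonneg (by positivity) hwp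
      have h8 : 0 ≤ (Real.log p / p) ^ 2 := sq_nonneg _
      have hKK1 : K3 / ρ + K4 ^ 2 ≤ K := by
        rw [hK]
        have : 0 < K1 / ρ := by positivity
        have : 0 < K2 / ρ := by positivity
        nlinarith [sq_nonneg K4]
      have hKK2 : K4 ≤ K := by
        rw [hK]
        have : 0 < K1 / ρ := by positivity
        have : 0 < K2 / ρ := by positivity
        have : 0 < K3 / ρ := by positivity
        nlinarith [sq_nonneg K4]
      calc |JC b p q / ((b ^ q).totient : ℝ) - mq b p * mq b q| ≤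
          JC b p q / ((b ^ q).totient : ℝ) + mq b p * mq b q := by
            rw [abs_le]; constructor <;> linarith
        _ ≤ K4 * (((b : ℝ) ^ (q - p))⁻¹ * (Real.log p / p)) +
            (K3 / ρ + K4 ^ 2) * (Real.log p / p) ^ 2 := by linarith
        _ ≤ K * (((b : ℝ) ^ (q - p))⁻¹ * (Real.log p / p)) + K * (Real.log p / p) ^ 2 :=
            add_le_add (mul_le_mul_of_nonneg_right hKK2 h7) (mul_le_mul_of_nonneg_right hKK1 h8)
        _ = _ := by ring)
  refine ⟨κ, C, hκ, hC, P', hP3', fun q hq T hT => ?_⟩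
  refine le_trans (le_of_eq ?_) (hrow q hq T hT)
  refine Finset.sum_congr rfl fun p hp => ?_
  have hp1 : 1 ≤ p := (hT p hp).1.pos
  simp only [hJ]
  rw [if_pos hp1]

end Pool.Agent.N420.MA
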