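import Mathlib
import Pool.Agent.N420.MA.Rate
import Pool.Agent.N420.MA.RowL
import Pool.Agent.W66.LT
import Pool.Agent.TH888.R.Asy

set_option autoImplicit false

/-!
# The low digits of a random unit form a system of nearly independent events
-/

namespace Pool.Agent.N420.MA

open Filter Topology Finset MeasureTheory
open scoped Real
open Pool.Agent.W66 Pool.Agent.W66L
open Pool.Agent.H305R2 (roughPart log_nat_tendsto)
open Pool.Agent.TH888.R (Sys wt wt_nonneg Pt VS)

variable {Ω : Type*} [MeasurableSpace Ω]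

lemma gc_sub (b : ℕ) (r : ℕ → Ω → ℕ) {p : ℕ} (hp : p.Prime) (x : Ω) :
    rpi p (r p x) - (if p.Prime then mq b p else 0) = Gc b r p x := by
  unfold Gc
  rw [if_pos hp, if_pos hp]

theorem sys_low {μ : Measure Ω} [IsProbabilityMeasure μ] {b : ℕ} {r : ℕ → Ω → ℕ} (hb : 2 ≤ b)
    (hr : Low b μ r) :
    Sys μ (fun p x => rpi p (r p x)) (fun p _ => if p.Prime then mq b p else 0)
      (fun _ => Real.exp Real.eulerMascheroniConstant / Real.log b) := by
  have hlb0 : 0 < Real.log b := Real.log_pos (by exact_mod_cast hb)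
  obtain ⟨K1, hK1, P1, h1⟩ := mq_rate hb
  obtain ⟨κ, C, hκ, hC, P2, hP23, h2⟩ := CO_row_set hb
  obtain ⟨K3, hK3, h3⟩ := mq_le hb
  obtain ⟨P3, hP3⟩ := eventually_atTop.1 h3
  refine ⟨fun q => (measurable_from_nat (f := rpi q)).comp (hr.meas q), fun q => measurable_const,
    ?_, ?_, ?_, ?_, ?_, ?_, ?_⟩
  · intro q x
    unfold rpi
    split_ifs
    · exact Or.inr rfl
    · exact Or.inl rfl
  · intro q x
    split_ifs
    · exact mq_nonneg b q
    · exact le_rfl
  · intro q x
    split_ifs with hq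
    · exact mq_le_one hb hq.one_lt.le
    · exact zero_le_one
  · refine ⟨K1, hK1.le, P1, Eventually.of_forall fun x q hq hqp => ?_⟩
    rw [if_pos hqp, mul_one_div]
    exact h1 q hq
  · exact ⟨Real.exp Real.eulerMascheroniConstant / Real.log b,
      Real.exp Real.eulerMascheroniConstant / Real.log b, by positivity,
      Eventually.of_forall fun _ => ⟨le_rfl, le_rfl⟩⟩
  · refine ⟨κ, C + K3, hκ, by positivity, P2 + P3, by omega, fun q hq hqp => ?_,
      fun q hq hqp T hT => ?_⟩
    · have e1 : ∀ x, (rpi q (r q x) - (if q.Prime then mq b q else 0)) ^ 2 = (Gc b r q x) ^ 2 :=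
        fun x => by rw [gc_sub b r hqp x]
      simp only [e1]
      refine (Gc_diag hr hb q hqp.one_lt.le).trans ((hP3 q (by omega)).trans ?_)
      exact mul_le_mul_of_nonneg_right (by linarith) (wt_nonneg q)
    · have e1 : ∑ p ∈ T, |∫ x, (rpi p (r p x) - (if p.Prime then mq b p else 0)) *
          (rpi q (r q x) - (if q.Prime then mq b q else 0)) ∂μ| ≤ ∑ p ∈ T, |CO b p q| := by
        refine Finset.sum_le_sum fun p hp => ?_
        obtain ⟨hpp, _, hpq⟩ := hT p hp
        have e2 : ∀ x, (rpi p (r p x) - (if p.Prime then mq b p else 0)) *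
            (rpi q (r q x) - (if q.Prime then mq b q else 0)) = Gc b r p x * Gc b r q x :=
          fun x => by rw [gc_sub b r hpp x, gc_sub b r hqp x]
        simp only [e2]
        exact Gc_prod hr hb hpp hpq
      refine e1.trans ((h2 q (by omega) T fun p hp => ?_).trans ?_)
      · obtain ⟨a1, a2, a3⟩ := hT p hp
        exact ⟨a1, by omega, a3⟩
      · have e3 : 0 ≤ ∑ p ∈ T.filter (fun p : ℕ => κ * q / Real.log q < (p : ℝ)), Real.log p / (p : ℝ) :=
          Finset.sum_nonneg fun p _ => wt_nonneg p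
        refine mul_le_mul_of_nonneg_right (by linarith) (mul_nonneg (wt_nonneg q) ?_)
        show 0 ≤ 1 + ∑ p ∈ T.filter (fun p : ℕ => κ * q / Real.log q < (p : ℝ)), Real.log p / (p : ℝ)
        linarith
  · refine ⟨K3, hK3.le, P3 + 1, fun q hq hqp => ?_⟩
    have e1 := hr.integral hb (n := q) hqp.one_lt.le (rpi q)
    rw [e1, sum_UU_rpi hb, mul_div_cancel_right₀ _ (tot_pow_pos hb q).ne']
    exact hP3 q (by omega)

/-- the law and the dichotomy for the residues of a random `b`-adic unit -/
theorem pt_low {μ : Measure Ω} [IsProbabilityMeasure μ] {b : ℕ} {r : ℕ → Ω → ℕ} (hb : 2 ≤ b)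
    (hr : Low b μ r) (S : Set ℕ) : ∀ᵐ x ∂μ, Pt (fun p => r p x)
      (Real.exp Real.eulerMascheroniConstant / Real.log b) S := by
  classical
  refine (sys_low hb hr).pt (s := fun x p => r p x) (Eventually.of_forall fun x => ⟨0, fun p _ _ => ?_⟩) S
  unfold rpi
  rfl

end Pool.Agent.N420.MA
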